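import Pool.Agent.L7h17.TR.Stm

/-!
# Project TR, part NST: the nesting of the ovals is preserved
-/

set_option autoImplicit false

open MvPolynomial Pool.Agent.L7h17

namespace Pool.Agent.L7h67.TR

open Pool.Agent.L7h17.TR

variable {k : ℕ} {D : Fin k → Set (Fin 3 → ℝ)} {A : Matrix (Fin 3) (Fin 3) ℝ}
  {π : Equiv.Perm (Fin k)}

theorem cont (A : Matrix (Fin 3) (Fin 3) ℝ) : Continuous fun v : Fin 3 → ℝ => A.mulVec v :=
  continuous_const.matrix_mulVec continuous_id

theorem ne_zero (h3 : A ^ 3 = 1) {w : Fin 3 → ℝ} (hw : w ≠ 0) : A.mulVec w ≠ 0 := by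
  intro h
  apply hw
  have h1 : (A ^ 3).mulVec w = 0 := by
    rw [pow_succ, ← Matrix.mulVec_mulVec, h, Matrix.mulVec_zero]
  rwa [h3, Matrix.one_mulVec] at h1

theorem inv_apply (h3 : A ^ 3 = 1) (w : Fin 3 → ℝ) : (A ^ 2).mulVec (A.mulVec w) = w := by
  rw [Matrix.mulVec_mulVec, ← pow_succ, h3, Matrix.one_mulVec]

theorem apply_inv (h3 : A ^ 3 = 1) (w : Fin 3 → ℝ) : A.mulVec ((A ^ 2).mulVec w) = w := by
  rw [Matrix.mulVec_mulVec, ← pow_succ', h3, Matrix.one_mulVec]

/-- One step: if the oval `j` is inside the oval `i` then `π j` is inside `π i`. -/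
theorem step (h3 : A ^ 3 = 1) (hM : Moves D A π) {i j : Fin k} (h : Inside D j i) :
    Inside D (π j) (π i) := by
  obtain ⟨hij, h⟩ := h
  refine ⟨fun he => hij (π.injective he), fun v hv S hS hSD hvS hnv => ?_⟩
  -- the pull-back of `S`
  have hB : Continuous fun w : Fin 3 → ℝ => (A ^ 2).mulVec w := cont _
  have hneg : ∀ w : Fin 3 → ℝ, (A ^ 2).mulVec (-w) = -((A ^ 2).mulVec w) := fun w =>
    Matrix.mulVec_neg _ _
  rcases hM i with hi | hi
  · -- `w ∈ D i ↔ A w ∈ D (π i)`: use `T = A⁻¹ S`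
    have hT : IsPreconnected ((fun w => (A ^ 2).mulVec w) '' S) := hS.image _ hB.continuousOn
    have hTD : ∀ w ∈ (fun w => (A ^ 2).mulVec w) '' S, w ≠ 0 ∧ w ∉ D i := by
      rintro _ ⟨s, hs, rfl⟩
      obtain ⟨h0, h1⟩ := hSD s hs
      refine ⟨fun h0' => h0 ?_, fun hd => h1 ?_⟩
      · rw [← apply_inv h3 s]
        change A.mulVec ((fun w => (A ^ 2).mulVec w) s) = 0
        rw [h0', Matrix.mulVec_zero]
      · have := (hi _).1 hd
        simp only [apply_inv h3] at this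
        exact this
    rcases hM j with hj | hj
    · have hv' : (A ^ 2).mulVec v ∈ D j := by
        rw [hj, apply_inv h3]; exact hv
      refine h _ hv' _ hT hTD ⟨v, hvS, rfl⟩ ⟨-v, hnv, ?_⟩
      exact hneg v
    · have hv' : (A ^ 2).mulVec (-v) ∈ D j := by
        rw [hj, apply_inv h3, neg_neg]; exact hv
      refine h _ hv' _ hT hTD ⟨-v, hnv, rfl⟩ ⟨v, hvS, ?_⟩
      simp only [hneg, neg_neg]
  · -- `w ∈ D i ↔ -(A w) ∈ D (π i)`: use `T = -A⁻¹ S`
    have hT : IsPreconnected ((fun w => (A ^ 2).mulVec (-w)) '' S) :=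
      hS.image _ (hB.comp continuous_neg).continuousOn
    have hTD : ∀ w ∈ (fun w => (A ^ 2).mulVec (-w)) '' S, w ≠ 0 ∧ w ∉ D i := by
      rintro _ ⟨s, hs, rfl⟩
      obtain ⟨h0, h1⟩ := hSD s hs
      refine ⟨fun h0' => h0 ?_, fun hd => h1 ?_⟩
      · have h2 := apply_inv h3 (-s)
        simp only at h0'
        rw [h0', Matrix.mulVec_zero] at h2
        exact (neg_eq_zero.1 h2.symm)
      · have := (hi _).1 hd
        simp only [apply_inv h3, neg_neg] at this
        exact this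
    rcases hM j with hj | hj
    · have hv' : (A ^ 2).mulVec v ∈ D j := by
        rw [hj, apply_inv h3]; exact hv
      refine h _ hv' _ hT hTD ⟨-v, hnv, ?_⟩ ⟨v, hvS, ?_⟩
      · simp only [neg_neg]
      · exact hneg v
    · have hv' : (A ^ 2).mulVec (-v) ∈ D j := by
        rw [hj, apply_inv h3, neg_neg]; exact hv
      refine h _ hv' _ hT hTD ⟨v, hvS, rfl⟩ ⟨-v, hnv, ?_⟩
      simp only [hneg, neg_neg]

theorem s_NST : S_NST := by
  intro k F D A π _ h3 hπ hM i j
  refine ⟨step h3 hM, fun h => ?_⟩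
  have h1 := step h3 hM (step h3 hM h)
  have e : ∀ x, π (π (π x)) = x := fun x => by
    have := congrArg (fun σ : Equiv.Perm (Fin k) => σ x) hπ
    simpa [pow_succ, Equiv.Perm.mul_apply] using this
  rwa [e, e] at h1

end Pool.Agent.L7h67.TR
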